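import Pool.Agent.Helper98.QR.StmtsE

/-!
# E15: from the marginals to the glued pairs
-/

set_option autoImplicit false

open Filter Topology MeasureTheory

namespace QR55

open QR

noncomputable section

/-- regular boundary graph -/
structure Reg {V : Type} (G : BGraph V) : Prop where
  symm : ∀ x y, G.c x y = G.c y x
  fin : ∀ x, (Function.support (G.c x)).Finite
  adj : ∀ i, G.c (G.b i) (G.b (i + 1)) ≠ 0

theorem reg1 {V W : Type} {G : BGraph V} {G' : BGraph W} (h : RegP G G') : Reg G :=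
  ⟨h.symm1, h.fin1, h.adj1⟩

theorem reg2 {V W : Type} {G : BGraph V} {G' : BGraph W} (h : RegP G G') : Reg G' :=
  ⟨h.symm2, h.fin2, h.adj2⟩

theorem rev (h1 : ST_E01) {ρ : ℕ} {V W : Type} {G : BGraph V} {G' : BGraph W} (hG : Reg G)
    (h : BIso ρ G G') : BIso ρ G' G :=
  (h1.2.2.2.1 ρ V W G G' h (fun i hi => h1.2.2.2.2.1 V G hG.symm hG.adj ρ i hi)).1

/-- equality of classes -/
def sd (ρ : ℕ) : Setoid FBd where
  r F F' := ∀ (V : Type) (G : BGraph V), Reg G → (BIso ρ G F.G ↔ BIso ρ G F'.G)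
  iseqv := ⟨fun _ _ _ _ => Iff.rfl, fun h V G hG => (h V G hG).symm,
    fun h h' V G hG => (h V G hG).trans (h' V G hG)⟩

/-- representative of the class -/
def rep (ρ : ℕ) (F : FBd) : FBd := (Quotient.mk (sd ρ) F).out

theorem rep_iff {ρ : ℕ} {V : Type} {G : BGraph V} (hG : Reg G) (F : FBd) :
    BIso ρ G (rep ρ F).G ↔ BIso ρ G F.G := by
  have h1 : (sd ρ).r (rep ρ F) F := Quotient.mk_out (s := sd ρ) F
  exact h1 V G hG

theorem rep_rep (ρ : ℕ) (F : FBd) : rep ρ (rep ρ F) = rep ρ F := by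
  unfold rep
  rw [Quotient.out_eq]

theorem rep_eq (h1 : ST_E01) {ρ : ℕ} {V : Type} {G : BGraph V} (hG : Reg G) (F F' : FBd)
    (hF : BIso ρ G F.G) (hF' : BIso ρ G F'.G) : rep ρ F = rep ρ F' := by
  have h2 : (sd ρ).r F F' := by
    intro W G1 hG1
    constructor
    · intro h
      exact h1.1 ρ _ _ _ G1 G F'.G (h1.1 ρ _ _ _ G1 F.G G h (rev h1 hG hF)) hF'
    · intro h
      exact h1.1 ρ _ _ _ G1 G F.G (h1.1 ρ _ _ _ G1 F'.G G h (rev h1 hG hF')) hF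
  unfold rep
  rw [Quotient.sound (s := sd ρ) h2]

/-- good pairs of classes -/
def Good (Z : (V : Type) → (V → V → ℕ) → V → Prop) (ρ : ℕ) (q : FBd × FBd) : Prop :=
  rep ρ q.1 = q.1 ∧ rep ρ q.2 = q.2 ∧
    ∀ (V W : Type) (G : BGraph V) (G' : BGraph W), RegP G G' → BIso ρ G q.1.G → BIso ρ G' q.2.G →
      Z _ (glueC G G') (Sum.inl (G.b 0))

/-- the property is determined by the balls of radius `ρ` -/
def Det (Z : (V : Type) → (V → V → ℕ) → V → Prop) (ρ : ℕ) {V W : Type} (G : BGraph V)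
    (G' : BGraph W) : Prop :=
  ∀ (V1 W1 : Type) (G1 : BGraph V1) (G1' : BGraph W1), RegP G1 G1' → BIso ρ G G1 →
    BIso ρ G' G1' → Z _ (glueC G1 G1') (Sum.inl (G1.b 0))

theorem det_iff (h1 : ST_E01) (h2 : ST_E02) (Z : (V : Type) → (V → V → ℕ) → V → Prop) (ρ : ℕ)
    {V W : Type} (G : BGraph V) (G' : BGraph W) (hR : RegP G G') :
    (∃ q, Good Z ρ q ∧ BIso ρ G q.1.G ∧ BIso ρ G' q.2.G) ↔ Det Z ρ G G' := by
  constructor
  · rintro ⟨q, hq, hq1, hq2⟩ V1 W1 G1 G1' hR1 h3 h4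
    exact hq.2.2 V1 W1 G1 G1' hR1 (h1.1 ρ _ _ _ G1 G _ (rev h1 (reg1 hR) h3) hq1)
      (h1.1 ρ _ _ _ G1' G' _ (rev h1 (reg2 hR) h4) hq2)
  · intro h
    obtain ⟨F1, hF1, -⟩ := h2 ρ V G hR.symm1 hR.fin1
    obtain ⟨F2, hF2, -⟩ := h2 ρ W G' hR.symm2 hR.fin2
    refine ⟨(rep ρ F1, rep ρ F2), ⟨rep_rep ρ F1, rep_rep ρ F2, ?_⟩, (rep_iff (reg1 hR) F1).2 hF1,
      (rep_iff (reg2 hR) F2).2 hF2⟩
    intro V1 W1 G1 G1' hR1 h3 h4
    have h5 := (rep_iff (reg1 hR1) F1).1 h3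
    have h6 := (rep_iff (reg2 hR1) F2).1 h4
    exact h V1 W1 G1 G1' hR1 (h1.1 ρ _ _ _ G F1.G G1 hF1 (rev h1 (reg1 hR1) h5))
      (h1.1 ρ _ _ _ G' F2.G G1' hF2 (rev h1 (reg2 hR1) h6))

theorem det_mono (h1 : ST_E01) (Z : (V : Type) → (V → V → ℕ) → V → Prop) {ρ ρ' : ℕ}
    (hρ : ρ ≤ ρ') {V W : Type} (G : BGraph V) (G' : BGraph W) (h : Det Z ρ G G') :
    Det Z ρ' G G' := by
  intro V1 W1 G1 G1' hR1 h3 h4
  exact h V1 W1 G1 G1' hR1 (h1.2.1 ρ' ρ _ _ G G1 hρ h3) (h1.2.1 ρ' ρ _ _ G' G1' hρ h4)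

theorem exists_det (h8 : ST_E08) (Z : (V : Type) → (V → V → ℕ) → V → Prop) (r : ℕ)
    (hZ : ∀ (V W : Type) (c : V → V → ℕ) (x : V) (c' : W → W → ℕ) (x' : W),
      SPR.BallIso r c x c' x' → (Z V c x ↔ Z W c' x'))
    {V W : Type} (G : BGraph V) (G' : BGraph W) (hR : RegP G G')
    (h : Z _ (glueC G G') (Sum.inl (G.b 0))) : ∃ ρ, Det Z ρ G G' := by
  obtain ⟨ρ, hρ⟩ := h8 V W G G' hR r
  refine ⟨ρ, ?_⟩
  intro V1 W1 G1 G1' hR1 h3 h4
  exact (hZ _ _ _ _ _ _ (hρ V1 W1 G1 G1' hR1 h3 h4)).1 h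

theorem det_self (h1 : ST_E01) (Z : (V : Type) → (V → V → ℕ) → V → Prop) (ρ : ℕ)
    {V W : Type} (G : BGraph V) (G' : BGraph W) (hR : RegP G G') (h : Det Z ρ G G') :
    Z _ (glueC G G') (Sum.inl (G.b 0)) :=
  h V W G G' hR (h1.2.2.1 ρ V G) (h1.2.2.1 ρ W G')

/-! ## Counting -/

instance (D : Type) [Finite D] : Finite (RMap D) := by
  refine Finite.of_injective (fun m : RMap D => (m.rot, m.opp)) ?_
  intro m m' h
  exact RMap.ext (congrArg Prod.fst h) (congrArg Prod.snd h)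

open Classical in
theorem card_sum_le {X ι : Type} [Finite X] (s : Finset ι) (A B : ι → X → Prop)
    (C : X → X → Prop)
    (hd : ∀ i ∈ s, ∀ j ∈ s, ∀ x y, A i x → B i y → A j x → B j y → i = j)
    (hC : ∀ i ∈ s, ∀ x y, A i x → B i y → C x y) :
    ∑ i ∈ s, Nat.card {x // A i x} * Nat.card {y // B i y} ≤
      Nat.card {z : X × X // C z.1 z.2} := by
  have := Fintype.ofFinite X
  have h1 : ∀ i, Nat.card {x // A i x} * Nat.card {y // B i y} =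
      ((Finset.univ.filter (A i)) ×ˢ (Finset.univ.filter (B i))).card := by
    intro i
    rw [Finset.card_product, Nat.card_eq_fintype_card, Nat.card_eq_fintype_card,
      Fintype.card_subtype, Fintype.card_subtype]
  rw [Finset.sum_congr rfl (fun i _ => h1 i), ← Finset.card_biUnion, Nat.card_eq_fintype_card,
    Fintype.card_subtype]
  · apply Finset.card_le_card
    intro z hz
    rw [Finset.mem_biUnion] at hz
    obtain ⟨i, hi, hz⟩ := hz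
    rw [Finset.mem_product, Finset.mem_filter, Finset.mem_filter] at hz
    rw [Finset.mem_filter]
    exact ⟨Finset.mem_univ _, hC i hi _ _ hz.1.2 hz.2.2⟩
  · intro i hi j hj hij
    rw [Function.onFun, Finset.disjoint_left]
    intro z hz hz'
    rw [Finset.mem_product, Finset.mem_filter, Finset.mem_filter] at hz hz'
    exact hij (hd i hi j hj _ _ hz.1.2 hz.2.2 hz'.1.2 hz'.2.2)

/-- the property of the pair of maps -/
def ZZ (Z : (V : Type) → (V → V → ℕ) → V → Prop) (n p : ℕ)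
    (x y : RMap (Fin (4 * n + 2 * p)) × Fin (4 * n + 2 * p)) : Prop :=
  Z _ (gl x.1 x.2 y.1 y.2) (Sum.inl ((x.1.bg x.2).b 0))

theorem prob2_ge (h1 : ST_E01) (h5 : ST_E05) (Z : (V : Type) → (V → V → ℕ) → V → Prop) (ρ : ℕ)
    (n p : ℕ) (hp : 2 ≤ p) (hne : (SQ n p).Nonempty) (s : Finset {q // Good Z ρ q}) :
    ∑ q ∈ s, prob n p (fun x => BIso ρ (x.1.bg x.2) q.1.1.G) *
      prob n p (fun x => BIso ρ (x.1.bg x.2) q.1.2.G) ≤ prob2 n p (ZZ Z n p) := by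
  have hreg : ∀ x ∈ SQ n p, Reg (x.1.bg x.2) := fun x hx => reg1 ((h5 n p hp x hx).2.2 x hx)
  have h2 := card_sum_le (X := RMap (Fin (4 * n + 2 * p)) × Fin (4 * n + 2 * p)) s
    (fun q x => x ∈ SQ n p ∧ BIso ρ (x.1.bg x.2) q.1.1.G)
    (fun q x => x ∈ SQ n p ∧ BIso ρ (x.1.bg x.2) q.1.2.G)
    (fun x y => x ∈ SQ n p ∧ y ∈ SQ n p ∧ ZZ Z n p x y) (by
      intro i _ j _ x y h3 h4 h6 h7
      apply Subtype.ext
      apply Prod.ext
      · have := rep_eq h1 (hreg x h3.1) _ _ h3.2 h6.2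
        rwa [i.2.1, j.2.1] at this
      · have := rep_eq h1 (hreg y h4.1) _ _ h4.2 h7.2
        rwa [i.2.2.1, j.2.2.1] at this) (by
      intro i _ x y h3 h4
      exact ⟨h3.1, h4.1, i.2.2.2 _ _ _ _ ((h5 n p hp x h3.1).2.2 y h4.1) h3.2 h4.2⟩)
  have hN : 0 < (Nat.card {x // x ∈ SQ n p} : ℝ) := by
    have : Nonempty {x // x ∈ SQ n p} := ⟨⟨hne.some, hne.some_mem⟩⟩
    exact_mod_cast Nat.card_pos
  unfold prob prob2
  rw [le_div_iff₀ (pow_pos hN 2), Finset.sum_mul]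
  have h3 : ∀ q : {q // Good Z ρ q},
      (Nat.card {x // x ∈ SQ n p ∧ BIso ρ (x.1.bg x.2) q.1.1.G} : ℝ) /
        (Nat.card {x // x ∈ SQ n p} : ℝ) *
      ((Nat.card {x // x ∈ SQ n p ∧ BIso ρ (x.1.bg x.2) q.1.2.G} : ℝ) /
        (Nat.card {x // x ∈ SQ n p} : ℝ)) * (Nat.card {x // x ∈ SQ n p} : ℝ) ^ 2 =
      (Nat.card {x // x ∈ SQ n p ∧ BIso ρ (x.1.bg x.2) q.1.1.G} : ℝ) *
      (Nat.card {x // x ∈ SQ n p ∧ BIso ρ (x.1.bg x.2) q.1.2.G} : ℝ) := by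
    intro q
    field_simp
  rw [Finset.sum_congr rfl (fun q _ => h3 q)]
  exact_mod_cast h2

theorem prob2_compl (Z : (V : Type) → (V → V → ℕ) → V → Prop) (n p : ℕ)
    (hne : (SQ n p).Nonempty) :
    prob2 n p (ZZ Z n p) + prob2 n p (ZZ (fun V c x => ¬ Z V c x) n p) = 1 := by
  classical
  have hN : 0 < (Nat.card {x // x ∈ SQ n p} : ℝ) := by
    have : Nonempty {x // x ∈ SQ n p} := ⟨⟨hne.some, hne.some_mem⟩⟩
    exact_mod_cast Nat.card_pos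
  unfold prob2
  rw [← add_div, div_eq_one_iff_eq (pow_pos hN 2).ne']
  have h1 : Nat.card {z : (RMap (Fin (4 * n + 2 * p)) × Fin (4 * n + 2 * p)) ×
      (RMap (Fin (4 * n + 2 * p)) × Fin (4 * n + 2 * p)) //
      z.1 ∈ SQ n p ∧ z.2 ∈ SQ n p ∧ ZZ Z n p z.1 z.2} +
    Nat.card {z : (RMap (Fin (4 * n + 2 * p)) × Fin (4 * n + 2 * p)) ×
      (RMap (Fin (4 * n + 2 * p)) × Fin (4 * n + 2 * p)) //
      z.1 ∈ SQ n p ∧ z.2 ∈ SQ n p ∧ ZZ (fun V c x => ¬ Z V c x) n p z.1 z.2} =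
    Nat.card {x // x ∈ SQ n p} * Nat.card {x // x ∈ SQ n p} := by
    have := Fintype.ofFinite (RMap (Fin (4 * n + 2 * p)) × Fin (4 * n + 2 * p))
    rw [Nat.card_eq_fintype_card, Nat.card_eq_fintype_card, Nat.card_eq_fintype_card,
      Fintype.card_subtype, Fintype.card_subtype, Fintype.card_subtype, ← Finset.card_product,
      ← Finset.card_union_of_disjoint]
    · congr 1
      ext z
      simp only [Finset.mem_union, Finset.mem_filter, Finset.mem_univ, true_and,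
        Finset.mem_product, ZZ]
      tauto
    · rw [Finset.disjoint_left]
      intro z hz hz'
      rw [Finset.mem_filter] at hz hz'
      exact hz'.2.2.2 hz.2.2.2
  rw [sq]
  exact_mod_cast h1

/-! ## The limit -/

section meas

variable {Ω : Type} [MeasurableSpace Ω] {P : Measure Ω} [IsProbabilityMeasure P]
  {H : Ω → BGraph ℕ}

/-- the event that the ball is `F` -/
def BI (H : Ω → BGraph ℕ) (ρ : ℕ) (F : FBd) : Set Ω := {ω | BIso ρ (H ω) F.G}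

/-- the union of the good rectangles -/
def DD (Z : (V : Type) → (V → V → ℕ) → V → Prop) (H : Ω → BGraph ℕ) (ρ : ℕ) : Set (Ω × Ω) :=
  ⋃ q : {q // Good Z ρ q}, BI H ρ q.1.1 ×ˢ BI H ρ q.1.2

/-- the event -/
def ZS (Z : (V : Type) → (V → V → ℕ) → V → Prop) (H : Ω → BGraph ℕ) : Set (Ω × Ω) :=
  {x | Z _ (glueC (H x.1) (H x.2)) (Sum.inl ((H x.1).b 0))}

omit [IsProbabilityMeasure P] in
theorem meas_BI (h3 : ST_E03) (hH : IsUIHPQ P H) (ρ : ℕ) (F : FBd) :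
    MeasurableSet (BI H ρ F) :=
  h3 Ω H hH.meas_c hH.meas_b hH.locfin ρ F

omit [IsProbabilityMeasure P] in
theorem meas_DD (h3 : ST_E03) (hH : IsUIHPQ P H) (Z : (V : Type) → (V → V → ℕ) → V → Prop)
    (ρ : ℕ) : MeasurableSet (DD Z H ρ) :=
  MeasurableSet.iUnion fun _ => (meas_BI h3 hH ρ _).prod (meas_BI h3 hH ρ _)

omit [MeasurableSpace Ω] in
theorem mem_DD (Z : (V : Type) → (V → V → ℕ) → V → Prop) (H : Ω → BGraph ℕ) (ρ : ℕ)
    (x : Ω × Ω) : x ∈ DD Z H ρ ↔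
      ∃ q, Good Z ρ q ∧ BIso ρ (H x.1) q.1.G ∧ BIso ρ (H x.2) q.2.G := by
  unfold DD
  rw [Set.mem_iUnion]
  constructor
  · rintro ⟨q, hq⟩
    exact ⟨q.1, q.2, hq.1, hq.2⟩
  · rintro ⟨q, hq, h1, h2⟩
    exact ⟨⟨q, hq⟩, h1, h2⟩

theorem ae_ZS (h1 : ST_E01) (h2 : ST_E02) (h6 : ST_E06) (h8 : ST_E08) (hH : IsUIHPQ P H)
    (Z : (V : Type) → (V → V → ℕ) → V → Prop) (r : ℕ)
    (hZ : ∀ (V W : Type) (c : V → V → ℕ) (x : V) (c' : W → W → ℕ) (x' : W),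
      SPR.BallIso r c x c' x' → (Z V c x ↔ Z W c' x')) :
    ZS Z H =ᵐ[P.prod P] ⋃ ρ, DD Z H ρ ∩ {x | RegP (H x.1) (H x.2)} := by
  rw [Filter.eventuallyEq_set]
  filter_upwards [h6 Ω P H hH] with x hx
  rw [Set.mem_iUnion]
  constructor
  · intro h
    obtain ⟨ρ, hρ⟩ := exists_det h8 Z r hZ (H x.1) (H x.2) hx.1 h
    exact ⟨ρ, (mem_DD Z H ρ x).2 ((det_iff h1 h2 Z ρ (H x.1) (H x.2) hx.1).2 hρ), hx.1⟩
  · rintro ⟨ρ, hρ, -⟩
    exact det_self h1 Z ρ (H x.1) (H x.2) hx.1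
      ((det_iff h1 h2 Z ρ (H x.1) (H x.2) hx.1).1 ((mem_DD Z H ρ x).1 hρ))

omit [MeasurableSpace Ω] in
theorem mono_DD (h1 : ST_E01) (h2 : ST_E02) (Z : (V : Type) → (V → V → ℕ) → V → Prop)
    (H : Ω → BGraph ℕ) :
    Monotone fun ρ => DD Z H ρ ∩ {x | RegP (H x.1) (H x.2)} := by
  intro ρ ρ' hρ x hx
  refine ⟨?_, hx.2⟩
  rw [mem_DD]
  rw [det_iff h1 h2 Z ρ' (H x.1) (H x.2) hx.2]
  apply det_mono h1 Z hρ
  rw [← det_iff h1 h2 Z ρ (H x.1) (H x.2) hx.2, ← mem_DD]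
  exact hx.1

theorem meas_ZS (h1 : ST_E01) (h2 : ST_E02) (h3 : ST_E03) (h6 : ST_E06) (h8 : ST_E08)
    (hH : IsUIHPQ P H) (Z : (V : Type) → (V → V → ℕ) → V → Prop) (r : ℕ)
    (hZ : ∀ (V W : Type) (c : V → V → ℕ) (x : V) (c' : W → W → ℕ) (x' : W),
      SPR.BallIso r c x c' x' → (Z V c x ↔ Z W c' x')) :
    NullMeasurableSet (ZS Z H) (P.prod P) := by
  have h4 : ZS Z H =ᵐ[P.prod P] ⋃ ρ, DD Z H ρ := by
    refine (ae_ZS h1 h2 h6 h8 hH Z r hZ).trans ?_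
    rw [Filter.eventuallyEq_set]
    filter_upwards [h6 Ω P H hH] with x hx
    rw [Set.mem_iUnion, Set.mem_iUnion]
    exact ⟨fun ⟨ρ, hρ⟩ => ⟨ρ, hρ.1⟩, fun ⟨ρ, hρ⟩ => ⟨ρ, hρ, hx.1⟩⟩
  exact (MeasurableSet.iUnion fun ρ => meas_DD h3 hH Z ρ).nullMeasurableSet.congr h4.symm

theorem lower (h1 : ST_E01) (h2 : ST_E02) (h5 : ST_E05) (h6 : ST_E06)
    (h8 : ST_E08) (hH : IsUIHPQ P H) (Z : (V : Type) → (V → V → ℕ) → V → Prop) (r : ℕ)
    (hZ : ∀ (V W : Type) (c : V → V → ℕ) (x : V) (c' : W → W → ℕ) (x' : W),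
      SPR.BallIso r c x c' x' → (Z V c x ↔ Z W c' x'))
    (n p : ℕ → ℕ) (hne : ∀ k, (SQ (n k) (p k)).Nonempty) (hp : Tendsto p atTop atTop)
    (hlim : ∀ (r : ℕ) (F : FBd), Tendsto
      (fun k => prob (n k) (p k) (fun x => BIso r (x.1.bg x.2) F.G)) atTop
      (𝓝 (P {ω | BIso r (H ω) F.G}).toReal))
    (c : ℝ) (hc : c < ((P.prod P) (ZS Z H)).toReal) :
    ∀ᶠ k in atTop, c < prob2 (n k) (p k) (ZZ Z (n k) (p k)) := by
  rcases lt_or_ge c 0 with hc0 | hc0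
  · refine Filter.Eventually.of_forall fun k => lt_of_lt_of_le hc0 ?_
    unfold prob2
    positivity
  · have h9 : ENNReal.ofReal c < (P.prod P) (ZS Z H) :=
      (ENNReal.ofReal_lt_iff_lt_toReal hc0 (measure_ne_top _ _)).2 hc
    rw [measure_congr (ae_ZS h1 h2 h6 h8 hH Z r hZ), (mono_DD h1 h2 Z H).measure_iUnion,
      lt_iSup_iff] at h9
    obtain ⟨ρ, hρ⟩ := h9
    have h10 : ENNReal.ofReal c < ∑' q : {q // Good Z ρ q},
        P (BI H ρ q.1.1) * P (BI H ρ q.1.2) := by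
      refine lt_of_lt_of_le hρ ((measure_mono Set.inter_subset_left).trans ?_)
      refine (measure_iUnion_le _).trans (le_of_eq ?_)
      exact tsum_congr fun q => Measure.prod_prod _ _
    rw [ENNReal.tsum_eq_iSup_sum, lt_iSup_iff] at h10
    obtain ⟨s, hs⟩ := h10
    have h11 : c < ∑ q ∈ s, (P (BI H ρ q.1.1)).toReal * (P (BI H ρ q.1.2)).toReal := by
      rw [ENNReal.ofReal_lt_iff_lt_toReal hc0, ENNReal.toReal_sum] at hs
      · simp only [ENNReal.toReal_mul] at hs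
        exact hs
      · intro q _
        exact ENNReal.mul_ne_top (measure_ne_top _ _) (measure_ne_top _ _)
      · exact ENNReal.sum_ne_top.2 fun q _ =>
          ENNReal.mul_ne_top (measure_ne_top _ _) (measure_ne_top _ _)
    have h12 : Tendsto (fun k => ∑ q ∈ s,
        prob (n k) (p k) (fun x => BIso ρ (x.1.bg x.2) q.1.1.G) *
        prob (n k) (p k) (fun x => BIso ρ (x.1.bg x.2) q.1.2.G)) atTop
        (𝓝 (∑ q ∈ s, (P (BI H ρ q.1.1)).toReal * (P (BI H ρ q.1.2)).toReal)) :=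
      tendsto_finsetSum _ fun q _ => (hlim ρ q.1.1).mul (hlim ρ q.1.2)
    filter_upwards [h12.eventually_const_lt h11, hp.eventually_ge_atTop 2] with k hk hk2
    exact hk.trans_le (prob2_ge h1 h5 Z ρ (n k) (p k) hk2 (hne k) s)

end meas

/-- E15: from the marginals to the glued pairs -/
theorem st_E15 (h1 : ST_E01) (h2 : ST_E02) (h3 : ST_E03) (h5 : ST_E05) (h6 : ST_E06)
    (h8 : ST_E08) (h9 : ST_E09) : ST_E15 := by
  intro Ω _ P _ H hH n p hne hp hlim r N F o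
  set Z : (V : Type) → (V → V → ℕ) → V → Prop := fun V c x => SPR.BallIso r c x F o with hZdef
  have hZ : ∀ (V W : Type) (c : V → V → ℕ) (x : V) (c' : W → W → ℕ) (x' : W),
      SPR.BallIso r c x c' x' → (Z V c x ↔ Z W c' x') := by
    intro V W c x c' x' h
    exact ⟨fun h' => h9.2.1 r _ _ _ _ _ _ _ _ _ (h9.1 r _ _ _ _ _ _ h) h',
      fun h' => h9.2.1 r _ _ _ _ _ _ _ _ _ h h'⟩
  have hZ' : ∀ (V W : Type) (c : V → V → ℕ) (x : V) (c' : W → W → ℕ) (x' : W),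
      SPR.BallIso r c x c' x' →
      ((fun V c x => ¬ Z V c x) V c x ↔ (fun V c x => ¬ Z V c x) W c' x') :=
    fun V W c x c' x' h => not_congr (hZ V W c x c' x' h)
  have hcompl : ((P.prod P) (ZS (fun V c x => ¬ Z V c x) H)).toReal =
      1 - ((P.prod P) (ZS Z H)).toReal := by
    have h10 : ZS (fun V c x => ¬ Z V c x) H = (ZS Z H)ᶜ := rfl
    have h11 := prob_compl_eq_one_sub₀ (meas_ZS h1 h2 h3 h6 h8 hH Z r hZ)
    rw [h10, h11, ENNReal.toReal_sub_of_le prob_le_one ENNReal.one_ne_top, ENNReal.toReal_one]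
  refine tendsto_order.2 ⟨fun a ha => ?_, fun a ha => ?_⟩
  · exact lower h1 h2 h5 h6 h8 hH Z r hZ n p hne hp hlim a ha
  · have h10 := lower h1 h2 h5 h6 h8 hH (fun V c x => ¬ Z V c x) r hZ' n p hne hp hlim (1 - a) (by
      rw [hcompl]
      have : ((P.prod P) (ZS Z H)).toReal < a := ha
      linarith)
    filter_upwards [h10] with k hk
    have h11 := prob2_compl Z (n k) (p k) (hne k)
    have h12 : prob2 (n k) (p k) (ZZ Z (n k) (p k)) < a := by linarith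
    exact h12

end

end QR55

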